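import Pool.Agent.helper62.CSQ.Spec

/-!
# Project csq: row FRY: frames exist
-/

set_option autoImplicit false

open Complex Metric Set Filter Topology MeasureTheory
open Pool.Agent.helper98.ILF
open HY (UD T S hd UN RM)
open PM (DD rm cx pd cr hdf LP DP)
open CSS (SE SV it JJ IB)
open PL (INR EUK cm BS DQ PG DK ht tr DI CY hG hq)
open P2S (VK VC KK JK LEV SS TP LO FC PZ GJ BJ FLS FL FR TL CLS PC STG GD VD BAD AUTT POWT TRN ROT)
open P2F (STR EXTP)
open P2G (PV)

noncomputable section

namespace P2GS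

theorem FRY (hFRX : P2S.FRX_stmt) (hFRTX : FRTX_stmt) (hTLX : P2S.TLX_stmt) : FRY_stmt := by
  intro f Lv hSS z hz ⟨B, hB⟩ U n T hU hn
  have hHn : Tendsto (fun j => n j + T j) U atTop := tendsto_atTop_mono (fun j => Nat.le_add_right _ _) hn
  obtain ⟨χ, hχ⟩ := hFRX f Lv hSS z hz U hU ⟨B, Eventually.of_forall hB⟩ (fun j => n j + T j) hHn
  obtain ⟨G, hG⟩ := hTLX f Lv hSS z hz U (fun j => n j + T j) χ hχ T (Eventually.of_forall fun j => Nat.le_add_left _ _)
  have hit : ∀ i (p : ℂ), p ∈ JK f Lv → it f i p ∈ JK f Lv := by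
    intro i p hp
    induction i with
    | zero => exact hp
    | succ k ih =>
      have h : it f (k + 1) p = f.eval (it f k p) := by
        show (fun z : ℂ => f.eval z)^[k + 1] p = _
        rw [Function.iterate_succ_apply']
        rfl
      rw [h]
      exact (hSS.Ji _).2 ih
  have hy : ∀ j, yy f z T j ∈ JK f Lv := fun j => hit _ _ (hz j)
  have hHn2 : Tendsto (fun j => n j + T j - T j) U atTop := by
    have e1 : (fun j => n j + T j - T j) = n := by
      funext j
      omega
    rw [e1]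
    exact hn
  obtain ⟨χ', hχ'⟩ := hFRTX f Lv hSS (yy f z T) hy U hU (fun j => n j + T j - T j) hHn2
  exact ⟨χ, G, χ', hχ, hG, hχ'⟩

end P2GS
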